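import Mathlib
import Pool.Agent.Y14.Defs
import Pool.Agent.Helper31_YM.Res

/-!
# Lattice Yang-Mills theory: the number of low-lying states at weak coupling

Wilson's lattice gauge theory on the periodic lattice `(ℤ/l)^d`, `d = D + 1 ≥ 3`, with gauge group a
closed subgroup `G` of `U(N)` of positive dimension: the probability measure on `G ^ links` with
density proportional to `exp (-β ∑_p Re tr (1 - U_p))` with respect to the Haar measure. Let
`m(β) = log β / √β` for `d = 3` and `m(β) = (log β / β) ^ (1 / (d - 2))` for `d ≥ 4`.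

For all large `β` and all energies `E` with `m(β) ≤ E ≤ 1` the space of local gauge invariant
observables in a cube of side `l ≥ C / E` of the time slice contains a subspace `W` of dimension at
least `c (l E) ^ (d - 1)` such that `⟨F; F⟩ > 0` for all nonzero `F` in `W` and the truncated time
correlations of all `F` in `W` satisfy `⟨F; F_t⟩ ≥ exp (-C E t) ⟨F; F⟩` for odd `t`. This holds in
the finite volumes and in all infinite volume limits, with constants `C`, `c` depending only on the
group and `d`. All elements of `W` are linear combinations of the spatial translates of one local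
observable supported in a cube of side at most `C / E`. By the min-max principle the transfer matrix
has, besides the vacuum, at least `c (l E) ^ (d - 1)` states of energy at most `C E` which are
created by observables in a spatial cube of side `l`: the lower bound of Weyl type for the number of
states of massless particles, on all scales between the lattice spacing and `1 / m(β)`.
-/

open MeasureTheory Matrix Filter Pool.Agent.Y14.Wilson
open scoped Matrix.Norms.Frobenius Topology

namespace Pool.Agent.Results.MP_7f377f_mp.ExtensiveLowSpectrum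

noncomputable section

/-- The bound `m(β)` in dimension `d = D + 1`: `log β / √β` for `d = 3` and
`(log β / β) ^ (1 / (d - 2))` for `d ≥ 4`. -/
def mb (D : ℕ) (β : ℝ) : ℝ :=
  if D = 2 then Real.log β / Real.sqrt β else (Real.log β / β) ^ (1 / ((D : ℝ) - 1))

/-- The spatial translates of the observable `F₀`; the time is the last coordinate. -/
def translates {N D : ℕ} {G : Subgroup (UU N)} (F₀ : (LinkZ (D + 1) → G) → ℝ) :
    Set ((LinkZ (D + 1) → G) → ℝ) :=
  {F | ∃ y : Fin (D + 1) → ℤ, y (Fin.last D) = 0 ∧ F = fun V => F₀ fun e => V (e.1 + y, e.2)}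

/-- The local observables in the cube of side `l` of the time slice `0`. -/
def obs {N : ℕ} (G : Subgroup (UU N)) (D l : ℕ) : Set ((LinkZ (D + 1) → G) → ℝ) :=
  {F | IsLocal l F ∧ AtTimeZero F}

/-- There is a space `W` of dimension at least `k` of functions in `S`, all of them linear
combinations of functions in `S'`, such that `cr F 0 > 0` and `cr F t ≥ exp (-A t) cr F 0` for all
nonzero `F` in `W` and all `t` in `T`; here `cr F t` stands for the truncated correlation of `F` and
its translate by `t` units of time. -/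
def Low {Ω : Type*} (S S' : Set (Ω → ℝ)) (T : Set ℕ) (cr : (Ω → ℝ) → ℕ → ℝ) (k A : ℝ) : Prop :=
  ∃ W : Submodule ℝ (Ω → ℝ), k ≤ Module.finrank ℝ W ∧ W ≤ Submodule.span ℝ S' ∧
    ∀ F ∈ W, F ∈ S ∧ (F ≠ 0 → 0 < cr F 0) ∧ ∀ t ∈ T, Real.exp (-(A * t)) * cr F 0 ≤ cr F t

theorem result {N n D : ℕ} (G : Subgroup (UU N)) (hG : IsClosed (G : Set (UU N)))
    [MeasurableSpace G] [BorelSpace G] (μ : Measure G) [IsProbabilityMeasure μ] [μ.IsHaarMeasure]
    (B : LieBasis G n) (hn : 1 ≤ n) (hD : 2 ≤ D) :
    ∃ C c β₀ : ℝ, 0 < C ∧ 0 < c ∧ 1 < β₀ ∧ ∀ β : ℝ, β₀ ≤ β → ∀ E : ℝ, mb D β ≤ E → E ≤ 1 →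
      ∃ (R : ℕ) (F₀ : (LinkZ (D + 1) → G) → ℝ), (R : ℝ) * E ≤ C ∧ F₀ ∈ obs G D R ∧
      ∀ l : ℕ, C ≤ l * E →
      (∀ [NeZero l], Even l → Low (obs G D l) (translates F₀) {t | Odd t ∧ t < l} (corr l μ β)
        (c * (l * E) ^ D) (C * E)) ∧
      ∀ ν : Measure (LinkZ (D + 1) → G), IsInfVol μ β ν →
        Low (obs G D l) (translates F₀) {t | Odd t} (corrZ ν) (c * (l * E) ^ D) (C * E) := by
  obtain ⟨C, c, β₀, h1, h2, h3, h4⟩ := Pool.Agent.MG990.Wilson.H31YM.main G hG μ B hn hD
  refine ⟨C, c, β₀, h1, h2, h3, fun β hβ E hE hE1 => ?_⟩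
  obtain ⟨R, F₀, h5, h6, h7, h8⟩ := h4 β hβ E hE hE1
  refine ⟨R, F₀, h5, ⟨h6, h7⟩, fun l hl => ⟨fun {_} hle => ?_, fun ν hν => ?_⟩⟩
  · obtain ⟨W, h9, h10, h11⟩ := (h8 l hl).1 hle
    refine ⟨W, h9, h10, fun F hF => ?_⟩
    obtain ⟨k1, k2, k3, k4⟩ := h11 F hF
    exact ⟨⟨k1, k2⟩, k3, fun t ht => k4 t ht.1 ht.2⟩
  · obtain ⟨W, h9, h10, h11⟩ := (h8 l hl).2 ν hν
    refine ⟨W, h9, h10, fun F hF => ?_⟩
    obtain ⟨k1, k2, k3, k4⟩ := h11 F hF
    exact ⟨⟨k1, k2⟩, k3, fun t ht => k4 t ht⟩

end

end Pool.Agent.Results.MP_7f377f_mp.ExtensiveLowSpectrum
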