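import Mathlib
import Pool.Agent.H189.WA.Fin
import Pool.Agent.H189.WA.Lin1

/-!
# Lattice Yang-Mills theory with the Wilson action: the static potential depends on the source only
through its central character, up to a logarithm

Space is the periodic cubic lattice `(ℤ/l)^D` with `D ≥ 2`, time is discrete, the gauge group `G` is
a connected closed subgroup of `U(N)` and the Boltzmann factor is `exp (β ∑_p Re tr U_p)` with
an arbitrary `β > 0`. The transfer matrix is the integral operator with the kernel `kernel` (in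
temporal gauge). The top of its spectrum on the gauge invariant functions of the links is
`vacuumTop`, the top on the matrix valued functions `Ψ` with `Ψ (γ · U) = κ (γ x) Ψ (U) κ (γ y)*` is
`pairTop`, and the static potential is `V_κ (x, y) = log (vacuumTop / pairTop)`.
If the centre of `G` acts by the same scalars in `κ` and in `τ` (for irreducible representations:
if `κ` and `τ` have the same central character, or `N`-ality), then
`|V_κ (x, y) - V_τ (x, y)| ≤ C log (2 + V_κ (x, y))` for all `x` and `y`, with a constant independent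
of the volume. At the distance `R` along an axis `V_κ` is at most `C R`, so that the difference is at
most `C log (2 + R)`: the string tension depends only on the `N`-ality, at every coupling.
-/

open MeasureTheory Matrix
open scoped ComplexConjugate Matrix.Norms.Frobenius

namespace Pool.Agent.Results.MP_7f377f_mp.NAlityWilson

set_option linter.unusedSectionVars false

noncomputable section

/-- Complex `N × N` matrices. -/
abbrev Mt (N : ℕ) := Matrix (Fin N) (Fin N) ℂ

/-- The elements of a subgroup of `U(N)`, as a type, with the group structure and the topology of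
the subgroup. -/
def El {N : ℕ} (G : Subgroup (unitaryGroup (Fin N) ℂ)) : Type := G

instance {N : ℕ} (G : Subgroup (unitaryGroup (Fin N) ℂ)) : Group (El G) :=
  Subgroup.toGroup G

instance {N : ℕ} (G : Subgroup (unitaryGroup (Fin N) ℂ)) : TopologicalSpace (El G) :=
  instTopologicalSpaceSubtype

/-- The matrix of an element of a subgroup of `U(N)`. -/
def mt {N : ℕ} {G : Subgroup (unitaryGroup (Fin N) ℂ)} (g : El G) : Mt N := g.1.1

/-- A continuous unitary representation of `G` of dimension `M`. -/
structure Rep {N : ℕ} (G : Subgroup (unitaryGroup (Fin N) ℂ)) (M : ℕ) where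
  hom : El G →* unitaryGroup (Fin M) ℂ
  cont : Continuous hom

/-- The matrix of the element `g` in the representation `κ`. -/
def Rep.mat {N M : ℕ} {G : Subgroup (unitaryGroup (Fin N) ℂ)} (κ : Rep G M) (g : El G) : Mt M :=
  κ.hom g

/-- Every element of the centre of `G` acts by the same scalar in `κ` and in `τ`. -/
def SameCentre {N M M' : ℕ} {G : Subgroup (unitaryGroup (Fin N) ℂ)} (κ : Rep G M)
    (τ : Rep G M') : Prop :=
  ∀ z : El G, (∀ h : El G, z * h = h * z) → ∃ c : ℂ, κ.mat z = c • 1 ∧ τ.mat z = c • 1

/-- Sites of the periodic lattice `(ℤ/l)^D`. -/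
abbrev Site (D l : ℕ) := Fin D → ZMod l

/-- Links of the periodic lattice: base point and direction. -/
abbrev Link (D l : ℕ) := Site D l × Fin D

/-- Unit vector of the lattice in direction `i`. -/
def unitv {D l : ℕ} (i : Fin D) : Site D l := Pi.single i 1

section

variable {N D l M : ℕ} {G : Subgroup (unitaryGroup (Fin N) ℂ)}

/-- The product of the link variables around the plaquette at `x` in the directions `i`, `j`. -/
def plaq (U : Link D l → El G) (x : Site D l) (i j : Fin D) : El G :=
  U (x, i) * U (x + unitv i, j) * (U (x + unitv j, i))⁻¹ * (U (x, j))⁻¹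

/-- The magnetic energy `∑_p Re tr (1 - U_p)`, the sum over the plaquettes of a time slice. -/
def magnetic [NeZero l] (U : Link D l → El G) : ℝ :=
  ∑ x : Site D l, ∑ i : Fin D, ∑ j : Fin D,
    if i < j then (trace (1 - mt (plaq U x i j))).re else 0

/-- The kernel of the transfer matrix of the Wilson action, for the configurations `U` and `V` of
two subsequent time slices: the Boltzmann factor of the plaquettes between the slices and of half
of the plaquettes in the slices. -/
def kernel [NeZero l] (β : ℝ) (U V : Link D l → El G) : ℝ :=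
  Real.exp (-(β / 2) * magnetic U) * Real.exp (-(β / 2) * magnetic V) *
    ∏ e : Link D l, Real.exp (β * (trace (mt (U e) * (mt (V e))ᴴ)).re)

/-- The quadratic form `⟨F, T F⟩` of the transfer matrix, `μ` being the Haar measure. -/
def form [NeZero l] [MeasurableSpace (El G)] (β : ℝ) (μ : Measure (El G))
    (F : (Link D l → El G) → ℂ) : ℝ :=
  ∫ U, ∫ V, (conj (F U) * F V).re * kernel β U V ∂(Measure.pi fun _ : Link D l => μ)
    ∂(Measure.pi fun _ : Link D l => μ)

/-- Gauge transformation of the link variables. -/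
def gauge (γ : Site D l → El G) (U : Link D l → El G) : Link D l → El G :=
  fun e => γ e.1 * U e * (γ (e.1 + unitv e.2))⁻¹

/-- A state without charges: a continuous gauge invariant function `F` with `∫ |F| ^ 2 = 1`. -/
structure IsVacuumState [NeZero l] [MeasurableSpace (El G)] (μ : Measure (El G))
    (F : (Link D l → El G) → ℂ) : Prop where
  cont : Continuous F
  inv : ∀ γ U, F (gauge γ U) = F U
  norm : ∫ U, ‖F U‖ ^ 2 ∂(Measure.pi fun _ : Link D l => μ) = 1

/-- A state with a static charge in the representation `κ` at `x` and one in the conjugate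
representation at `y`: a continuous matrix valued function `Ψ` with
`Ψ (γ · U) = κ (γ x) Ψ (U) κ (γ y)*` and `∑_{i, j} ∫ |Ψ_{i j}| ^ 2 = 1`. -/
structure IsPairState [NeZero l] [MeasurableSpace (El G)] (μ : Measure (El G))
    (κ : Rep G M) (x y : Site D l) (Ψ : (Link D l → El G) → Mt M) : Prop where
  cont : ∀ i j, Continuous fun U => Ψ U i j
  cov : ∀ γ U, Ψ (gauge γ U) = κ.mat (γ x) * Ψ U * (κ.mat (γ y))ᴴ
  norm : ∑ i, ∑ j, ∫ U, ‖Ψ U i j‖ ^ 2 ∂(Measure.pi fun _ : Link D l => μ) = 1

/-- The top of the spectrum of the transfer matrix on the states without charges. -/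
def vacuumTop (D l : ℕ) [NeZero l] [MeasurableSpace (El G)] (β : ℝ) (μ : Measure (El G)) : ℝ :=
  sSup {t : ℝ | ∃ F : (Link D l → El G) → ℂ, IsVacuumState μ F ∧ form β μ F = t}

/-- The top of the spectrum of the transfer matrix on the states with a static charge in the
representation `κ` at `x` and one in the conjugate representation at `y`. -/
def pairTop [NeZero l] [MeasurableSpace (El G)] (β : ℝ) (μ : Measure (El G))
    (κ : Rep G M) (x y : Site D l) : ℝ :=
  sSup {t : ℝ | ∃ Ψ : (Link D l → El G) → Mt M, IsPairState μ κ x y Ψ ∧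
    ∑ i, ∑ j, form β μ (fun U => Ψ U i j) = t}

/-- The static potential of the pair. -/
def potential [NeZero l] [MeasurableSpace (El G)] (β : ℝ) (μ : Measure (El G))
    (κ : Rep G M) (x y : Site D l) : ℝ :=
  Real.log (vacuumTop D l β μ / pairTop β μ κ x y)

/-- The site at the distance `R` from `x` in the direction `i`. -/
def far (x : Site D l) (i : Fin D) (R : ℕ) : Site D l := x + R • unitv i

end

open Pool.Agent.H189

section

local instance el_ms {N : ℕ} {G : Subgroup (unitaryGroup (Fin N) ℂ)} [h : MeasurableSpace G] :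
    MeasurableSpace (El G) := h

variable {N D l M : ℕ} {G : Subgroup (unitaryGroup (Fin N) ℂ)}

/-- The same homomorphism in the form used by the helper files. -/
def fr (κ : Rep G M) : G →* KS.UU M := κ.hom

lemma vac_eq [CompactSpace G] [SecondCountableTopology G] [NeZero l] [MeasurableSpace G]
    [BorelSpace G] (μ : Measure G) [IsProbabilityMeasure μ] (β : ℝ) :
    vacuumTop (G := G) D l β μ = WA.top0 μ (WA.ker β (WA.wt β)) (WA.GI (D := D) (l := l)) := by
  unfold vacuumTop WA.top0
  congr 1
  ext t
  constructor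
  · rintro ⟨F, h, rfl⟩
    exact ⟨F, h.cont, h.inv, h.norm, rfl⟩
  · rintro ⟨F, h1, h2, h3, rfl⟩
    exact ⟨F, ⟨h1, h2, h3⟩, rfl⟩

lemma pair_eq [CompactSpace G] [SecondCountableTopology G] [NeZero l] [MeasurableSpace G]
    [BorelSpace G] (μ : Measure G) [IsProbabilityMeasure μ] (β : ℝ)
    (κ : Rep G M) (x y : Site D l) : pairTop β μ κ x y =
      WA.topv μ (WA.ker β (WA.wt β)) (KS.PP (M := M) (M' := M) (fr κ) (fr κ) x y) := by
  unfold pairTop WA.topv
  congr 1
  ext t
  constructor
  · rintro ⟨Ψ, h, rfl⟩
    have hs : Continuous fun U : Link D l → G => (KS.ofM (Ψ U) : KS.HV M M) :=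
      WA.cont_of_ent fun q => h.cont q.1 q.2
    refine ⟨fun U => KS.ofM (Ψ U), hs, fun γ U => h.cov γ U, ?_, ?_⟩
    · rw [WA.nsq_eq μ hs, Fintype.sum_prod_type]
      exact h.norm
    · unfold WA.vf
      rw [Fintype.sum_prod_type]
      rfl
  · rintro ⟨Φ, hs, hP, hn, rfl⟩
    refine ⟨fun U => KS.toM (Φ U), ⟨fun i j => WA.ent_cont hs (i, j), fun γ U => hP γ U, ?_⟩, ?_⟩
    · rw [WA.nsq_eq μ hs, Fintype.sum_prod_type] at hn
      exact hn
    · unfold WA.vf
      rw [Fintype.sum_prod_type]
      rfl

lemma aux {N D M M' : ℕ} (G : Subgroup (unitaryGroup (Fin N) ℂ))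
    (hG : IsClosed (G : Set (unitaryGroup (Fin N) ℂ)))
    [ConnectedSpace G] [hm : MeasurableSpace G] [BorelSpace G] (μ : Measure G)
    [IsProbabilityMeasure μ] [μ.IsHaarMeasure] (hD : 2 ≤ D)
    (κ : Rep G M) (τ : Rep G M') (hM : 0 < M) (hM' : 0 < M') (hz : SameCentre κ τ)
    (β : ℝ) (hβ : 0 < β) :
    ∃ C : ℝ, ∀ (l : ℕ) [NeZero l], C ≤ l →
      (∀ x y : Site D l, 0 < pairTop β μ κ x y ∧ pairTop β μ κ x y ≤ vacuumTop D l β μ ∧
        0 < pairTop β μ τ x y ∧ pairTop β μ τ x y ≤ vacuumTop D l β μ ∧
        |potential β μ κ x y - potential β μ τ x y| ≤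
          C * Real.log (2 + potential β μ κ x y)) ∧
      ∀ (x : Site D l) (i : Fin D) (R : ℕ), R ≤ l →
        potential β μ κ x (far x i R) ≤ C * R ∧
        |potential β μ κ x (far x i R) - potential β μ τ x (far x i R)| ≤
          C * Real.log (2 + R) := by
  have hcU : CompactSpace (KS.UU N) := KS.E0AL.cUU N
  have hcs : CompactSpace G := isCompact_iff_compactSpace.1 hG.isCompact
  have hsc0 : SecondCountableTopology (KS.UU N) := KS.E0AL.sUU N
  have hsc : SecondCountableTopology G := TopologicalSpace.Subtype.secondCountableTopology _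
  have hκ : Continuous (fr κ) := κ.cont
  have hτ : Continuous (fr τ) := τ.cont
  have hz1 : ∀ z : G, (∀ h : G, z * h = h * z) → ∃ c : ℂ,
      (fr κ z : KS.Mt M) = c • (1 : KS.Mt M) ∧ (fr τ z : KS.Mt M') = c • (1 : KS.Mt M') := hz
  obtain ⟨C, hC⟩ := WA.nality_lin WA.t_LIN1 hG μ hD (fr κ) (fr τ) hκ hτ hM hM' hz1 hβ
  refine ⟨C, ?_⟩
  intro l _ hl
  obtain ⟨g1, g2⟩ := hC l hl
  have hpot : ∀ x y : Site D l, potential β μ κ x y = WA.pot μ β (fr κ) x y ∧
      potential β μ τ x y = WA.pot μ β (fr τ) x y := by
    intro x y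
    unfold potential WA.pot
    rw [vac_eq (D := D) (l := l) μ β, pair_eq μ β κ x y, pair_eq μ β τ x y]
    exact ⟨rfl, rfl⟩
  refine ⟨fun x y => ?_, fun x i R hR => ?_⟩
  · have p1 := WA.pot_pos (D := D) hG μ (fr κ) hκ hM hβ x y
    have p2 := WA.pot_pos (D := D) hG μ (fr τ) hτ hM' hβ x y
    have q0 := vac_eq (D := D) (l := l) μ β
    have q1 := pair_eq μ β κ x y
    have q2 := pair_eq μ β τ x y
    rw [← q0, ← q1] at p1
    rw [← q0, ← q2] at p2
    refine ⟨p1.1, p1.2, p2.1, p2.2, ?_⟩
    rw [(hpot x y).1, (hpot x y).2]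
    exact g1 x y
  · rw [(hpot x (far x i R)).1, (hpot x (far x i R)).2]
    exact g2 x i R hR

end

/-- **The static potentials of two representations with the same central character differ by at most
a constant times a logarithm**, uniformly in the volume. -/
theorem result {N D M M' : ℕ} (G : Subgroup (unitaryGroup (Fin N) ℂ))
    (hG : IsClosed (G : Set (unitaryGroup (Fin N) ℂ))) [hc : ConnectedSpace (El G)]
    [hm : MeasurableSpace (El G)] [hb : BorelSpace (El G)] (μ : Measure (El G))
    [hp : IsProbabilityMeasure μ] [hh : μ.IsHaarMeasure] (hD : 2 ≤ D) (κ : Rep G M)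
    (τ : Rep G M') (hM : 0 < M) (hM' : 0 < M') (hz : SameCentre κ τ) (β : ℝ) (hβ : 0 < β) :
    ∃ C : ℝ, ∀ (l : ℕ) [NeZero l], C ≤ l →
      (∀ x y : Site D l, 0 < pairTop β μ κ x y ∧ pairTop β μ κ x y ≤ vacuumTop D l β μ ∧
        0 < pairTop β μ τ x y ∧ pairTop β μ τ x y ≤ vacuumTop D l β μ ∧
        |potential β μ κ x y - potential β μ τ x y| ≤
          C * Real.log (2 + potential β μ κ x y)) ∧
      ∀ (x : Site D l) (i : Fin D) (R : ℕ), R ≤ l →
        potential β μ κ x (far x i R) ≤ C * R ∧
        |potential β μ κ x (far x i R) - potential β μ τ x (far x i R)| ≤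
          C * Real.log (2 + R) :=
  @aux N D M M' G hG hc hm hb μ hp hh hD κ τ hM hM' hz β hβ

end

end Pool.Agent.Results.MP_7f377f_mp.NAlityWilson
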