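import Mathlib
import Pool.Agent.H735U.Fin

/-!
# Universality of the asymptotic freedom of lattice Yang-Mills theory

Lattice Yang-Mills theory with gauge group an arbitrary closed subgroup `G` of `U(N)` on the four
dimensional lattice `{0, …, L} × (ℤ/L)³`, periodic in space, with the Dirichlet boundary values of a
constant chromoelectric field (the Schrödinger functional), as in the starting result
`AsymptoticFreedom`, but with an arbitrary plaquette energy `s` in place of Wilson's `Re tr (1 - g)`: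
`s` is smooth, its restriction to `G` is a class function, `s(g) > 0` for `g ≠ 1`, and
`s(g) = ‖g - 1‖² / 2 + O(‖g - 1‖⁴)`. The inverse of the running coupling at the scale `L` is
`β ‖T‖² - 11 / (24 π²) κ(T) log L + x κ(T) + (1/4) ∑ D⁴s(T, T, X_a, X_a) + o(1)`, `κ(T) = - tr (ad T)²`,
as `L → ∞`, uniformly in `β ≥ L ^ K` and in `T`, with the same numbers `x` and `11/3` for all groups and
all energies: the energy enters only through a shift of the bare coupling by its fourth derivative at `1`.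

For a simple Lie algebra every smooth class function `s` with `s(g⁻¹) = s(g)` and the unique minimum `1`,
nondegenerate in one direction, is such an energy after multiplication by a constant.
An example are the mixed actions `Re tr (1 - g) - b |tr (1 - g)|²` of `SU(N)`, `b < 1 / (2 N)` (up to the
normalization the fundamental-adjoint actions `a (N - Re tr g) + b (N² - |tr g|²)`, `a + 2 N b = 1`).

The modules `Pool.Agent.H735U` are joint work: helper735 (plan, statements, assembly), helper740,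
helper887, helper511, helper55, helper719, helper93, helper625, helper13, helper523, helper323,
helper298, helper987, helper646, helper683, helper360, helper662, helper280, helper753. They continue
the project AF (`Pool.Agent.Y16.AF`).
-/

open MeasureTheory Matrix Filter
open scoped Matrix.Norms.Frobenius Topology ContDiff

namespace Pool.Agent.Results.MP_7f377f_mp.UniversalityOfAsymptoticFreedom

noncomputable section

/-- Square matrices; their norm is the Frobenius norm. -/
abbrev Mt (N : ℕ) := Matrix (Fin N) (Fin N) ℂ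

/-- The unitary group `U(N)`. -/
abbrev UU (N : ℕ) := Matrix.unitaryGroup (Fin N) ℂ

/-- The matrix of an element of a subgroup of `U(N)`. -/
def mt {N : ℕ} {G : Subgroup (UU N)} (g : G) : Mt N := ((g : UU N) : Mt N)

/-- Points of space, `(ℤ/L)³`. -/
abbrev Sp (L : ℕ) := Fin 3 → ZMod L

/-- The dynamical links: `(x, inl t)` is the link from `(t, x)` to `(t + 1, x)`, `0 ≤ t < L`, and
`(x, inr (s, j))` is the link from `(s + 1, x)` to `(s + 1, x + e_j)`, `s + 1 < L`. -/
abbrev Links (L : ℕ) := Sp L × (Fin L ⊕ (Fin (L - 1) × Fin 3))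

section lattice

variable {N L : ℕ} {G : Subgroup (UU N)}

/-- The variable of the link from `(t, x)` to `(t + 1, x)`. -/
def tv (U : Links L → G) (t : ℕ) (x : Sp L) : G := if h : t < L then U (x, .inl ⟨t, h⟩) else 1

/-- The variable of the link from `(t, x)` to `(t, x + e_j)`; at the times `0` and `L` it is the
boundary value, `1` and `exp (ε T / L)` for `j = 0`, `1` for `j ≠ 0`, where `e s = exp (s T)`. -/
def sv (e : ℝ → G) (ε : ℝ) (U : Links L → G) (t : ℕ) (x : Sp L) (j : Fin 3) : G :=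
  if h : 0 < t ∧ t < L then U (x, .inr (⟨t - 1, by omega⟩, j))
  else if t = L ∧ j = 0 then e (ε / L) else 1

/-- The plaquette at `(t, x)` in the direction of time and the direction `j` of space. -/
def tplaq (e : ℝ → G) (ε : ℝ) (U : Links L → G) (t : ℕ) (x : Sp L) (j : Fin 3) : G :=
  tv U t x * sv e ε U (t + 1) x j * (tv U t (x + Pi.single j 1))⁻¹ * (sv e ε U t x j)⁻¹

/-- The plaquette at `(t, x)` in the directions `i`, `j` of space. -/
def splaq (e : ℝ → G) (ε : ℝ) (U : Links L → G) (t : ℕ) (x : Sp L) (i j : Fin 3) : G :=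
  sv e ε U t x i * sv e ε U t (x + Pi.single i 1) j * (sv e ε U t (x + Pi.single j 1) i)⁻¹ *
    (sv e ε U t x j)⁻¹

/-- The action: the sum of the energies `s (U_p)` of all plaquettes. -/
def action [NeZero L] (s : Mt N → ℝ) (e : ℝ → G) (ε : ℝ) (U : Links L → G) : ℝ :=
  ∑ x : Sp L, ((∑ t ∈ Finset.range L, ∑ j, s (mt (tplaq e ε U t x j))) +
    ∑ t ∈ Finset.range (L + 1), ∑ i, ∑ j,
      if i < j then s (mt (splaq e ε U t x i j)) else 0)

/-- The Schrödinger functional: the partition function with the given boundary values. -/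
def Z [MeasurableSpace G] (μ : Measure G) (s : Mt N → ℝ) (e : ℝ → G) (L : ℕ) [NeZero L]
    (β ε : ℝ) : ℝ :=
  ∫ U : Links L → G, Real.exp (-(β * action s e ε U)) ∂(Measure.pi fun _ => μ)

/-- The inverse running coupling at the scale `L`: the second derivative of the free energy
`- log Z` with respect to the boundary field. -/
def invCoupling [MeasurableSpace G] (μ : Measure G) (s : Mt N → ℝ) (e : ℝ → G) (L : ℕ) [NeZero L]
    (β : ℝ) : ℝ :=
  iteratedDeriv 2 (fun ε => -Real.log (Z μ s e L β ε)) 0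

end lattice

/-- `Y` is in the Lie algebra of `G`. -/
def IsLie {N : ℕ} (G : Subgroup (UU N)) (Y : Mt N) : Prop :=
  ∀ t : ℝ, ∃ g : G, mt g = NormedSpace.exp (t • Y)

/-- `X` is an orthonormal basis of the Lie algebra of `G` for the scalar product `Re tr (Y* Z)`. -/
def IsBasis {N n : ℕ} (G : Subgroup (UU N)) (X : Fin n → Mt N) : Prop :=
  (∀ a b, (trace ((X a)ᴴ * X b)).re = if a = b then 1 else 0) ∧
    ∀ Y, IsLie G Y ↔ Y ∈ Submodule.span ℝ (Set.range X)

/-- The Lie algebra of `G` is simple. -/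
def IsSimple {N : ℕ} (G : Subgroup (UU N)) : Prop :=
  (∃ Y Z, IsLie G Y ∧ IsLie G Z ∧ Y * Z ≠ Z * Y) ∧
    ∀ W : Submodule ℝ (Mt N), (∀ Y ∈ W, IsLie G Y) →
      (∀ Y ∈ W, ∀ Z, IsLie G Z → Z * Y - Y * Z ∈ W) → W = ⊥ ∨ ∀ Y, IsLie G Y → Y ∈ W

/-- The energies of a plaquette: smooth class functions which are positive except at `1`, where they
have the normalized Hessian and no cubic term. Wilson's energy is `Re tr (1 - g) = ‖g - 1‖² / 2`. -/
structure IsEnergy {N : ℕ} (G : Subgroup (UU N)) (s : Mt N → ℝ) : Prop where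
  smooth : ContDiff ℝ ∞ s
  cls : ∀ g h : G, s (mt (h * g * h⁻¹)) = s (mt g)
  pos : ∀ g : G, g ≠ 1 → 0 < s (mt g)
  norm : ∃ C : ℝ, ∀ g : G, |s (mt g) - 1 / 2 * ‖mt g - 1‖ ^ 2| ≤ C * ‖mt g - 1‖ ^ 4

/-- The fourth derivative of the energy at `1` along a one parameter group. -/
def quart {N : ℕ} (s : Mt N → ℝ) (Y : Mt N) : ℝ :=
  iteratedDeriv 4 (fun t : ℝ => s (NormedSpace.exp (t • Y))) 0

/-- The fourth derivative of the energy at `1`, twice in the direction `T` and twice in the
direction `X`: the polarization of the quartic form `quart s`. -/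
def mixed {N : ℕ} (s : Mt N → ℝ) (T X : Mt N) : ℝ :=
  (quart s (T + X) + quart s (T - X) - 2 * quart s T - 2 * quart s X) / 12

/-- The mixed fundamental-adjoint energy. -/
def smix {N : ℕ} (b : ℝ) (M : Mt N) : ℝ := (trace (1 - M)).re - b * ‖trace (1 - M)‖ ^ 2

/-- With the energy `s` the inverse running coupling is `m T β L` up to an error which tends to zero
as `L → ∞`, uniformly in `β ≥ L ^ K` and in the field `T`. -/
def Runs {N : ℕ} (G : Subgroup (UU N)) [MeasurableSpace G] (μ : Measure G) (s : Mt N → ℝ) (K : ℕ)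
    (m : Mt N → ℝ → ℕ → ℝ) : Prop :=
  ∃ δ : ℕ → ℝ, Tendsto δ atTop (𝓝 0) ∧ ∀ (T : Mt N) (e : ℝ → G),
    (∀ t, mt (e t) = NormedSpace.exp (t • T)) → ∀ (L : ℕ) [NeZero L], 2 ≤ L → ∀ β : ℝ,
      (L : ℝ) ^ K ≤ β → |invCoupling μ s e L β - m T β L| ≤ δ L * ‖T‖ ^ 2

/-- `κ(T) = - tr (ad T)²`. -/
def kappa {N n : ℕ} (X : Fin n → Mt N) (T : Mt N) : ℝ := ∑ a, ‖T * X a - X a * T‖ ^ 2

/-- The one loop formula. -/
def oneLoop {N n : ℕ} (x : ℝ) (s : Mt N → ℝ) (X : Fin n → Mt N) (T : Mt N) (β : ℝ) (L : ℕ) : ℝ :=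
  β * ‖T‖ ^ 2 - 11 / (24 * Real.pi ^ 2) * kappa X T * Real.log L + x * kappa X T +
    1 / 4 * ∑ a, mixed s T (X a)

/-- The class functions with the nondegenerate minimum `1`. -/
structure IsSymmetric {N : ℕ} (G : Subgroup (UU N)) (s : Mt N → ℝ) : Prop where
  smooth : ContDiff ℝ ∞ s
  cls : ∀ g h : G, s (mt (h * g * h⁻¹)) = s (mt g)
  inv : ∀ g : G, s (mt g⁻¹) = s (mt g)
  one : s 1 = 0
  pos : ∀ g : G, g ≠ 1 → 0 < s (mt g)
  nondeg : ∃ T, IsLie G T ∧ iteratedDeriv 2 (fun t : ℝ => s (NormedSpace.exp (t • T))) 0 ≠ 0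

/-- **Universality of the asymptotic freedom of lattice Yang-Mills theory.** -/
theorem result : ∃ (x : ℝ) (K : ℕ), ∀ {N : ℕ}
    (G : Subgroup (UU N)) (_ : IsClosed (G : Set (UU N))) [MeasurableSpace G] [BorelSpace G]
    (μ : Measure G) [IsProbabilityMeasure μ] [μ.IsHaarMeasure],
    (∀ s, IsEnergy G s → ∀ {n : ℕ} (X : Fin n → Mt N), IsBasis G X →
      Runs G μ s K (oneLoop x s X)) ∧
    (IsSimple G → ∃ c : ℝ, 0 < c ∧
      (∀ s, IsEnergy G s → ∃ f : ℝ, Runs G μ s K fun T β L =>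
        ‖T‖ ^ 2 * (β - 11 / (24 * Real.pi ^ 2) * c * Real.log L + f)) ∧
      ∀ s, IsSymmetric G s → ∃ z : ℝ, 0 < z ∧ IsEnergy G fun M => s M / z) ∧
    ((∀ U : UU N, U ∈ G ↔ det (U : Mt N) = 1) → 0 < N → ∀ b : ℝ, b * (2 * N) < 1 →
      IsEnergy G (smix b) ∧ Runs G μ (smix b) K fun T β L =>
        ‖T‖ ^ 2 * (β - 11 * N / (12 * Real.pi ^ 2) * Real.log L + 2 * N * x -
          N / 6 + 1 / (4 * N) - b * (N ^ 2 + 1) / 2)) := by
  obtain ⟨x, K, h⟩ := Pool.Agent.H735U.final
  refine ⟨x, K, ?_⟩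
  intro N G hG _ _ μ _ _
  obtain ⟨h1, h2, h3⟩ := h G hG μ
  refine ⟨fun s hs n X hX => h1 s ⟨hs.smooth, hs.cls, hs.pos, hs.norm⟩ X hX, fun hG2 => ?_,
    fun hSU hN b hb => ?_⟩
  · obtain ⟨c, hc, h4, h5⟩ := h2 hG2
    refine ⟨c, hc, fun s hs => h4 s ⟨hs.smooth, hs.cls, hs.pos, hs.norm⟩, fun s a => ?_⟩
    obtain ⟨z, hz, hs⟩ := h5 s a.smooth a.cls a.inv a.one a.pos a.nondeg
    exact ⟨z, hz, ⟨hs.smooth, hs.cls, hs.pos, hs.norm⟩⟩
  · obtain ⟨hs, h6⟩ := h3 hSU hN b hb
    exact ⟨⟨hs.smooth, hs.cls, hs.pos, hs.norm⟩, h6⟩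

end

end Pool.Agent.Results.MP_7f377f_mp.UniversalityOfAsymptoticFreedom
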